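import Pool.Agent.NUF.Wide

/-!
ISO: the isoperimetric bound for the gas of nested polygons. Definitions.
-/

set_option autoImplicit false

namespace HexObs

namespace LP

namespace ISO

open Finset

/-- the third coordinate, l2 = lv + nn. -/
def l2 (v : Pt) : ℤ := 2 * v.1 + v.2

lemma l2_eq (v : Pt) : l2 v = lv v + nn v := by
  unfold l2 lv nn
  ring

open Classical in
/-- the faces inside E. -/
noncomputable def fac (E : Finset (Pt × Pt)) : Finset Pt :=
  if h : {f : Pt | Fc f ∧ Nw E f ≠ 0}.Finite then h.toFinset else ∅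

/-- the number of the rows of faces of a polygon in the direction of l. -/
def wid (l : Pt → ℤ) (E : Finset (Pt × Pt)) : ℕ := ((VE E ×ˢ VE E).sup fun p => (l p.1 - l p.2).toNat) / 3

/-- the hexagonal ball around f0. -/
noncomputable def Hx (R : ℕ) : Finset Pt := (PP R R).filter (fun v => |l2 v - 2| < 3 * R)

theorem mem_Hx {R : ℕ} {v : Pt} : v ∈ Hx R ↔ Vt v ∧ |lv v - 1| < 3 * R ∧ |l2 v - 2| < 3 * R ∧ |nn v - 1| < 3 * R := by
  unfold Hx
  rw [Finset.mem_filter, mem_PP]
  tauto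

theorem PP_sub_Hx (R : ℕ) : PP R R ⊆ Hx (2 * R) := by
  intro v hv
  rw [mem_PP] at hv
  rw [mem_Hx, l2_eq]
  obtain ⟨h1, h2, h3⟩ := hv
  rw [abs_lt] at h2 h3
  push_cast
  refine ⟨h1, ?_, ?_, ?_⟩ <;> rw [abs_lt] <;> constructor <;> omega

end ISO

end LP

end HexObs
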